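import Pool.Agent.Helper61.CAR.GoalsQ

/-!
Project CAR (MP_d97caa_an), packet CAR-BD: block diagonal matrices.
-/

open scoped ComplexOrder

namespace Pool.Agent.Helper22.CAR

open Pool.Agent.Helper61.CAR Pool.Agent.Helper34.CAR

/-- The block diagonal homomorphism. -/
noncomputable def blk (I : Type) [Fintype I] [DecidableEq I] (J : I → Type)
    [∀ i, Fintype (J i)] [∀ i, DecidableEq (J i)] :
    (∀ i, CStarMatrix (J i) (J i) ℂ) →⋆ₐ[ℂ] CStarMatrix (Σ i, J i) (Σ i, J i) ℂ where
  toFun x := CStarMatrix.ofMatrix (Matrix.blockDiagonal' fun i => CStarMatrix.ofMatrix.symm (x i))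
  map_one' := by
    exact congrArg CStarMatrix.ofMatrix (Matrix.blockDiagonal'_one (m' := J) (α := ℂ))
  map_mul' x y := by
    exact congrArg CStarMatrix.ofMatrix (Matrix.blockDiagonal'_mul (m' := J) (n' := J) (p' := J)
      (α := ℂ) (fun i => CStarMatrix.ofMatrix.symm (x i))
      (fun i => CStarMatrix.ofMatrix.symm (y i)))
  map_zero' := by
    exact congrArg CStarMatrix.ofMatrix (Matrix.blockDiagonal'_zero (m' := J) (n' := J) (α := ℂ))
  map_add' x y := by
    exact congrArg CStarMatrix.ofMatrix (Matrix.blockDiagonal'_add (m' := J) (n' := J)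
      (α := ℂ) (fun i => CStarMatrix.ofMatrix.symm (x i))
      (fun i => CStarMatrix.ofMatrix.symm (y i)))
  commutes' c := by
    rw [Algebra.algebraMap_eq_smul_one, Algebra.algebraMap_eq_smul_one]
    have h1 := Matrix.blockDiagonal'_smul (m' := J) (n' := J) (α := ℂ) c
      (fun i => (1 : Matrix (J i) (J i) ℂ))
    have h2 := Matrix.blockDiagonal'_one (m' := J) (α := ℂ)
    refine (congrArg CStarMatrix.ofMatrix h1).trans ?_
    exact congrArg (fun M => CStarMatrix.ofMatrix (c • M)) h2
  map_star' x := by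
    exact (congrArg CStarMatrix.ofMatrix (Matrix.blockDiagonal'_conjTranspose (m' := J) (n' := J)
      (α := ℂ) (fun i => CStarMatrix.ofMatrix.symm (x i)))).symm

theorem bd_same (I : Type) [Fintype I] [DecidableEq I] (J : I → Type)
    [∀ i, Fintype (J i)] [∀ i, DecidableEq (J i)] (x : ∀ i, CStarMatrix (J i) (J i) ℂ)
    (i : I) (p q : J i) : blk I J x ⟨i, p⟩ ⟨i, q⟩ = x i p q :=
  Matrix.blockDiagonal'_apply_eq (fun i => CStarMatrix.ofMatrix.symm (x i)) i p q

theorem bd_ne (I : Type) [Fintype I] [DecidableEq I] (J : I → Type)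
    [∀ i, Fintype (J i)] [∀ i, DecidableEq (J i)] (x : ∀ i, CStarMatrix (J i) (J i) ℂ)
    (i j : I) (p : J i) (q : J j) (h : i ≠ j) : blk I J x ⟨i, p⟩ ⟨j, q⟩ = 0 :=
  Matrix.blockDiagonal'_apply_ne (fun i => CStarMatrix.ofMatrix.symm (x i)) p q h

theorem bd : S_BD := by
  intro I _ _ J _ _
  refine ⟨blk I J, fun x i p q => bd_same I J x i p q, fun x i j p q h => bd_ne I J x i j p q h,
    fun x c hc hx => ?_, fun R _ x v => ?_⟩
  · refine (NonUnitalStarAlgHom.norm_apply_le (blk I J) x).trans ?_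
    exact (pi_norm_le_iff_of_nonneg hc).2 hx
  · unfold qf
    rw [Fintype.sum_sigma]
    refine Finset.sum_congr rfl fun i _ => Finset.sum_congr rfl fun p _ => ?_
    rw [Fintype.sum_sigma, Finset.sum_eq_single i]
    · refine Finset.sum_congr rfl fun q _ => ?_
      rw [bd_same]
    · intro j _ hj
      refine Finset.sum_eq_zero fun q _ => ?_
      rw [bd_ne I J x i j p q (Ne.symm hj), zero_smul]
    · intro h
      exact absurd (Finset.mem_univ i) h

end Pool.Agent.Helper22.CAR
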